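import Pool.Agent.Lib.MP_9a92d3_gt.Acyc
import Pool.Agent.Lib.MP_9a92d3_gt.Simply

set_option autoImplicit false

/-!
# Torsion growth and l2-torsion

The normalised alternating sum of the logarithms of the torsion orders of the finite coverings of a
finite det-l2-acyclic complex need not converge to its l2-torsion.

The group is `G = H × ℤ`, `H` the integral Heisenberg group, and the complex has, modulo `G`,
one vertex, 5 edges, 13 squares and 9 cubes.  Its cellular chain complex is homotopy equivalent to
the sum of the chain complex of `D × S¹` (`D` two-dimensional) and of the complex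
`ℤ[G] → ℤ[G]`, right multiplication by `y - 2 + 2 x` (in degrees 3 and 2).
-/

namespace Pool.Agent.Results.MP_9a92d3_gt.TorsionGrowthFails

open Filter Topology Pool.Agent.Lib.MP_9a92d3_gt

theorem result :
    ∃ (G : Type) (_ : Group G) (Y : FreeCubeComplex G),
      Y.SimplyConnected ∧ Y.DetL2Acyclic ∧
      ∃ N N' : ℕ → Subgroup G, IsFiniteIndexNormalChain N ∧ IsFiniteIndexNormalChain N' ∧
        (∀ i, 1 ≤ i → (Y.quotient (N i)).torsionSum / ((N i).index : ℝ) ≤ Real.log 5 / 7) ∧
        (∀ i, 1 ≤ i → 3 * Real.log 2 / 7 ≤ (Y.quotient (N' i)).torsionSum / ((N' i).index : ℝ)) ∧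
        (¬ Tendsto (fun i => (Y.quotient (N i)).torsionSum / ((N i).index : ℝ)) atTop
            (𝓝 Y.l2Torsion) ∨
          ¬ Tendsto (fun i => (Y.quotient (N' i)).torsionSum / ((N' i).index : ℝ)) atTop
            (𝓝 Y.l2Torsion)) := by
  refine ⟨GG, inferInstance, ggens.cover, simplyConnected, detL2Acyclic, NA, NB, chainA, chainB,
    ?_, ?_, ?_⟩
  · intro i hi
    obtain ⟨j, rfl⟩ : ∃ j, i = j + 1 := ⟨i - 1, by omega⟩
    exact boundA j
  · intro i hi
    obtain ⟨j, rfl⟩ : ∃ j, i = j + 1 := ⟨i - 1, by omega⟩
    refine le_trans (le_of_eq ?_) (boundB j)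
    ring
  · by_contra h
    push Not at h
    exact not_both _ h.1 h.2

/-- The assertion of Q1 fails. -/
theorem not_torsionGrowthEqualsL2Torsion : ¬ TorsionGrowthEqualsL2Torsion := by
  intro h
  exact not_both _ (h GG ggens.cover simplyConnected detL2Acyclic NA chainA)
    (h GG ggens.cover simplyConnected detL2Acyclic NB chainB)

end Pool.Agent.Results.MP_9a92d3_gt.TorsionGrowthFails
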